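import Pool.Agent.helper82.SC.SpecC

/-! # sp: module AN: the limit of the observables at the fourth corner -/

namespace Pool.Agent.helper82.SC

open Relation Filter Topology Complex MeasureTheory
open scoped Interval

theorem AN_FU (n : ℕ) : FUn n (zD n).1 := by
  refine ⟨1, ?_⟩
  rw [mem_Usq]
  simp [zD, S]

theorem AN_one : (1 : ℂ) ∈ Qs := by
  simp [Qs]

theorem AN_dist (n : ℕ) : ‖pd (zD n) - n * 1‖ ≤ 8 := by
  have h3 : Real.sqrt 3 ≤ 2 := by
    rw [Real.sqrt_le_left (by norm_num)]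
    norm_num
  have h30 := Real.sqrt_nonneg 3
  have hre : (pd (zD n) - n * 1).re = 3 / 4 := by
    simp [pd, ps, zD, S]
    ring
  have him : (pd (zD n) - n * 1).im = -(Real.sqrt 3 / 4) := by
    simp [pd, ps, zD, S]
    ring
  refine (Complex.norm_le_abs_re_add_abs_im _).trans ?_
  rw [hre, him, abs_neg, abs_of_nonneg (by positivity), abs_of_nonneg (by positivity)]
  linarith

theorem AN (hLIM : LIM_stmt) (hLB : LB_stmt) (hRC : RC_stmt) (hMO : MO_stmt) (hUN : UN_stmt) :
    AN_stmt := by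
  intro P hP
  have key : ∀ 𝒰 : Ultrafilter ℕ, (𝒰 : Filter ℕ) ≤ atTop →
      Tendsto (fun n => P n 1 (zD n)) 𝒰 (𝓝 (1 / 2)) ∧
        Tendsto (fun n => P n 2 (zD n)) 𝒰 (𝓝 (1 / 2)) := by
    intro 𝒰 hU
    obtain ⟨h, hc, he⟩ := hLIM P hP 𝒰 hU
    have hLm : Lm P 𝒰 h := ⟨hU, hc, he⟩
    obtain ⟨hs, ha, hco⟩ := hLB P 𝒰 h hP hLm
    have hFF : ContinuousOn (FF h) Qs := by
      unfold FF
      refine continuousOn_finsetSum _ fun j _ => ContinuousOn.mul continuousOn_const ?_
      exact Complex.continuous_ofReal.comp_continuousOn (hc j)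
    have hd := hMO (FF h) hFF (hRC P 𝒰 h hP hLm)
    obtain ⟨h1, h2⟩ := hUN h hc hd hs ha hco
    have hlim : ∀ j : Fin 3, Tendsto (fun n => P n j (zD n)) 𝒰 (𝓝 (h j 1)) := by
      intro j
      rw [Metric.tendsto_nhds]
      intro ε hε
      filter_upwards [he (ε / 2) (by positivity)] with n hn
      rw [Real.dist_eq]
      have := hn j (zD n) 1 (AN_FU n) AN_one (AN_dist n)
      linarith
    have e1 := hlim 1
    have e2 := hlim 2
    rw [h1] at e1
    rw [h2] at e2
    exact ⟨e1, e2⟩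
  constructor
  · rw [tendsto_iff_ultrafilter]
    exact fun g hg => (key g hg).1
  · rw [tendsto_iff_ultrafilter]
    exact fun g hg => (key g hg).2

end Pool.Agent.helper82.SC
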