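import Pool.Agent.helper82.SC.SpecA

/-! # sp: module FC: number of configurations -/

namespace Pool.Agent.helper82.SC

open Relation

/-- exterior values for the corner `a 0` -/
noncomputable def FC_beta (D : Dom) (v : V) : ZMod 2 := if D.sec v = 0 then 1 else 0

theorem FC_fin (d e : Fin 3) : e = d ∨ e = d + 1 ∨ e = d + 2 := by
  revert d e; decide

theorem FC_fin' (m : Fin 3) (h : m ≠ 0) : m = 1 ∨ m = 2 := by
  revert m; decide

theorem FC_fin'' (m : Fin 3) (h : m + 1 = 0 + 1) : m = 0 := by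
  revert m; decide

theorem FC_third (D : Dom) (f : F) (d : Fin 3) (h : D.FU f) (h0 : S f d ∉ D.U)
    (h1 : S f (d + 1) ∉ D.U) : S f (d + 2) ∈ D.U := by
  obtain ⟨e, he⟩ := h
  have := FC_fin d e
  rcases this with h | h | h
  · rw [h] at he; exact absurd he h0
  · rw [h] at he; exact absurd he h1
  · rw [← h]; exact he

theorem FC_bdry (D : Dom) : Bdry D (FC_beta D) (D.a 0) := by
  refine ⟨⟨_, D.third 0⟩, D.first 0, D.second 0, ?_⟩
  intro x hx h1 h2
  have h3 := FC_third D x.1 x.2 hx h1 h2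
  by_cases hs : D.sec (S x.1 x.2) = D.sec (S x.1 (x.2 + 1))
  · have hne : x ≠ D.a 0 := by
      intro h
      have e1 := D.sec_first 0
      have e2 := D.sec_second 0
      rw [← h] at e1 e2
      rw [e1, e2] at hs
      exact absurd hs (by decide)
    unfold Dom.wall FC_beta
    rw [if_pos hs, if_neg hne, hs]
    split_ifs <;> decide
  · obtain ⟨m, hm⟩ := D.only x.1 x.2 h3 h1 h2 hs
    have hm' : x = D.a m := hm
    have e1 := D.sec_first m
    have e2 := D.sec_second m
    rw [← hm'] at e1 e2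
    unfold Dom.wall FC_beta
    rw [if_neg hs, e1, e2]
    have hne : m ≠ 0 → x ≠ D.a 0 := by
      intro h0 h
      have e3 := D.sec_first 0
      rw [← h, e1] at e3
      exact h0 (FC_fin'' m e3)
    by_cases h0 : m = 0
    · subst h0
      rw [if_pos hm', if_neg (by decide), if_neg (by decide)]
      decide
    · rw [if_neg (hne h0)]
      have := FC_fin' m h0
      rcases this with h | h
      · subst h
        rw [if_neg (by decide), if_pos (by decide)]
        rfl
      · subst h
        rw [if_pos (by decide), if_neg (by decide)]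

theorem FC (hCA : CA_stmt) (hMV : MV_stmt) (hSY : SY_stmt) : FC_stmt := by
  intro D z hz
  have hb := hCA D (FC_beta D) (D.a 0) (FC_bdry D)
  have hset : {s : Finset V | s ⊆ D.U} = (D.U.powerset : Set (Finset V)) := by
    ext s
    simp
  have h0 : (D.Conf (D.a 0)).Finite ∧ (D.Conf (D.a 0)).ncard = 2 ^ D.U.card := by
    rw [← hb.image_eq, hb.injOn.ncard_image, hset]
    refine ⟨Set.Finite.image _ (Finset.finite_toSet _), ?_⟩
    rw [Set.ncard_coe_finset, Finset.card_powerset]
  have hmv : ∀ (f : F) (d e : Fin 3), D.FU f →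
      ((D.Conf (f, d)).Finite ∧ (D.Conf (f, d)).ncard = 2 ^ D.U.card) →
      ((D.Conf (f, e)).Finite ∧ (D.Conf (f, e)).ncard = 2 ^ D.U.card) := by
    intro f d e hf ⟨h1, h2⟩
    have hb := hMV D f d e hf
    rw [← hb.image_eq, hb.injOn.ncard_image]
    exact ⟨h1.image _, h2⟩
  have hall : ∀ g : F, ReflTransGen (fun f g => (∃ d, g = tw f d) ∧ ∃ d, S g d ∈ D.U) (D.a 0).1 g →
      D.FU g ∧ ∀ e : Fin 3, ((D.Conf (g, e)).Finite ∧ (D.Conf (g, e)).ncard = 2 ^ D.U.card) := by
    intro g hg
    induction hg with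
    | refl =>
      have hF : D.FU (D.a 0).1 := ⟨_, D.third 0⟩
      exact ⟨hF, fun e => hmv _ (D.a 0).2 e hF h0⟩
    | @tail b c _ h ih =>
      obtain ⟨⟨d, hd⟩, hF⟩ := h
      refine ⟨hF, fun e => hmv _ d e hF ?_⟩
      have h1 := (hSY D (b, d)).1
      unfold star at h1
      rw [hd]
      rw [h1]
      exact ih.2 d
  exact (hall z.1 (D.fconn _ _ ⟨_, D.third 0⟩ hz)).2 z.2

end Pool.Agent.helper82.SC
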